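import Pool.Agent.HIK.Stmts

/-! HIK, row RTS: the number of the simple roots modulo `p` of a monic polynomial. -/

set_option autoImplicit false

namespace Pool.Agent.HIK.H9

open Polynomial NumberField Pool.Agent.HIK

/-- The second order expansion. -/
theorem exists_quad {R : Type*} [CommRing R] (h : R[X]) (y y' : R) :
    ∃ k : R, h.eval y' = h.eval y + (derivative h).eval y * (y' - y) + k * (y' - y) ^ 2 := by
  obtain ⟨k, hk⟩ := Polynomial.binomExpansion h y (y' - y)
  refine ⟨k, ?_⟩
  rw [← hk]
  congr 1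
  ring

/-- Simple roots which agree modulo all maximal ideals above `p` agree modulo `p`. -/
theorem dvd_of_agree (K : Type) [Field K] [NumberField K] (p : ℕ)
    (hu : ∀ u : 𝓞 K, (∀ P ∈ Ab K p, u ∉ P) → UnitMod (p : 𝓞 K) u) (h : (𝓞 K)[X])
    (y y' : 𝓞 K) (hy : (p : 𝓞 K) ∣ h.eval y) (hy' : (p : 𝓞 K) ∣ h.eval y')
    (hs : UnitMod (p : 𝓞 K) ((derivative h).eval y)) (hP : ∀ P ∈ Ab K p, y' - y ∈ P) :
    (p : 𝓞 K) ∣ y' - y := by
  obtain ⟨k, hk⟩ := exists_quad h y y'
  have h1 : (p : 𝓞 K) ∣ ((derivative h).eval y + k * (y' - y)) * (y' - y) := by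
    have h2 : ((derivative h).eval y + k * (y' - y)) * (y' - y) = h.eval y' - h.eval y := by
      rw [hk]
      ring
    rw [h2]
    exact dvd_sub hy' hy
  have h3 : UnitMod (p : 𝓞 K) ((derivative h).eval y + k * (y' - y)) := by
    apply hu
    intro P hPA hmem
    have h4 : (derivative h).eval y ∈ P := by
      have h5 := P.sub_mem hmem (P.mul_mem_left k (hP P hPA))
      rwa [add_sub_cancel_right] at h5
    obtain ⟨v, w, hv⟩ := hs
    have h6 : (1 : 𝓞 K) ∈ P := by
      have h7 : (1 : 𝓞 K) = v * (derivative h).eval y + w * (p : 𝓞 K) := by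
        rw [mul_comm w, ← hv]
        ring
      rw [h7]
      exact P.add_mem (P.mul_mem_left v h4) (P.mul_mem_left w hPA.2)
    exact hPA.1.ne_top ((Ideal.eq_top_iff_one P).2 h6)
  obtain ⟨v, hv⟩ := h3
  have h8 : y' - y = (1 - v * ((derivative h).eval y + k * (y' - y))) * (y' - y) +
      v * (((derivative h).eval y + k * (y' - y)) * (y' - y)) := by ring
  rw [h8]
  exact dvd_add (Dvd.dvd.mul_right hv _) (Dvd.dvd.mul_left h1 _)

/-- A prime number is not invertible in the ring of integers. -/
theorem not_dvd_one (K : Type) [Field K] [NumberField K] (p : ℕ) (hp : p.Prime) :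
    ¬ (p : 𝓞 K) ∣ 1 := by
  intro h
  have h1 : IsUnit (p : 𝓞 K) := isUnit_of_dvd_one h
  rw [NumberField.isUnit_iff_norm] at h1
  have h2 : ((RingOfIntegers.norm ℚ (p : 𝓞 K) : 𝓞 ℚ) : ℚ) =
      (p : ℚ) ^ Module.finrank ℚ K := by
    have h3 : (((p : 𝓞 K) : 𝓞 K) : K) = algebraMap ℚ K (p : ℚ) := by
      simp
    rw [RingOfIntegers.coe_norm, h3, Algebra.norm_algebraMap]
  rw [h2, abs_of_nonneg (by positivity)] at h1
  have h4 : 1 < (p : ℚ) ^ Module.finrank ℚ K :=
    one_lt_pow₀ (by exact_mod_cast hp.one_lt) Module.finrank_pos.ne'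
  exact absurd h1 h4.ne'

theorem rts (prm : PrmStmt) : RtsStmt := by
  intro K _ _ p hp h hm S hS hS' hinj
  classical
  obtain ⟨hfin, hcard, hu⟩ := prm K p hp
  rcases Nat.eq_zero_or_pos h.natDegree with h0 | hpos
  · have h1 : h = 1 := hm.natDegree_eq_zero.1 h0
    have h2 : S = ∅ := by
      rw [Finset.eq_empty_iff_forall_notMem]
      intro y hy
      have h3 := hS y hy
      rw [h1, eval_one] at h3
      exact not_dvd_one K p hp h3
    rw [h2]
    simp
  · have hT : ∀ P ∈ hfin.toFinset, (S.image (Ideal.Quotient.mk P)).card ≤ h.natDegree := by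
      intro P hP
      rw [Set.Finite.mem_toFinset] at hP
      haveI : P.IsMaximal := hP.1
      have hmap : (h.map (Ideal.Quotient.mk P)) ≠ 0 := (hm.map _).ne_zero
      calc (S.image (Ideal.Quotient.mk P)).card
          ≤ (h.map (Ideal.Quotient.mk P)).natDegree := by
            apply Polynomial.card_le_degree_of_subset_roots
            intro z hz
            rw [Finset.mem_val, Finset.mem_image] at hz
            obtain ⟨y, hy, rfl⟩ := hz
            rw [Polynomial.mem_roots hmap, IsRoot.def, eval_map_apply]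
            rw [Ideal.Quotient.eq_zero_iff_mem]
            obtain ⟨c, hc⟩ := hS y hy
            rw [hc]
            exact P.mul_mem_right c hP.2
        _ ≤ h.natDegree := natDegree_map_le
    calc S.card ≤ (hfin.toFinset.pi fun P => S.image (Ideal.Quotient.mk P)).card := by
          apply Finset.card_le_card_of_injOn (fun y => fun P _ => Ideal.Quotient.mk P y)
          · intro y hy
            rw [Finset.mem_coe, Finset.mem_pi]
            intro P _
            exact Finset.mem_image_of_mem _ hy
          · intro y hy y' hy' hyy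
            apply hinj y hy y' hy'
            have h5 : (p : 𝓞 K) ∣ y - y' := by
              apply dvd_of_agree K p hu h y' y (hS y' hy') (hS y hy) (hS' y' hy')
              intro P hP
              have h6 := congrFun (congrFun hyy P) (hfin.mem_toFinset.2 hP)
              exact (Ideal.Quotient.mk_eq_mk_iff_sub_mem y y').1 h6
            exact h5
      _ = ∏ P ∈ hfin.toFinset, (S.image (Ideal.Quotient.mk P)).card := Finset.card_pi _ _
      _ ≤ h.natDegree ^ hfin.toFinset.card := Finset.prod_le_pow_card _ _ _ hT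
      _ ≤ h.natDegree ^ Module.finrank ℚ K := by
          apply Nat.pow_le_pow_right hpos
          rwa [← Set.ncard_eq_toFinset_card _ hfin]

end Pool.Agent.HIK.H9
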